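import Pool.Agent.Helper56.M7.Inner
import Pool.Agent.Helper19.RG.M7

/-!
Sides with seven vertices: the rim edges at the side are rigid.  (Problem MP_d067c8_co.)
-/

namespace Pool.Agent.Helper56.M7

open Finset Pool.Agent.Helper19.CF Pool.Agent.Helper19.RG

variable {N : ℕ} [NeZero N] {f : Equiv.Perm (ZMod N)}

/-- The killing cut of a corner. -/
theorem ckill (hN : 5 < N) (hodd : N % 2 = 1)
    (hcyc : CyclicallyEdgeConnected (permGraph N f) 5)
    (hno : ¬ HasFlow (permGraph N f) (9 / 2)) {x ε η p r : ZMod N}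
    (h : Wd f 0 2 (cq f x ε η) p r 0 1) :
    ∃ (e : ℕ) (Y : Finset (ZMod N ⊕ ZMod N)), Side f Y ∧ (.inl x : ZMod N ⊕ ZMod N) ∈ Y ∧
      (.inr (f x) : ZMod N ⊕ ZMod N) ∉ Y ∧
      (∀ z, z ≠ x → ((.inl z : ZMod N ⊕ ZMod N) ∈ Y ↔ (.inr (f z) : ZMod N ⊕ ZMod N) ∈ Y)) ∧
      (.inr (f (x + ε)) : ZMod N ⊕ ZMod N) ∈ Y ∧
      (.inl (f.symm (f x + η)) : ZMod N ⊕ ZMod N) ∉ Y ∧
      (.inl (x - 1) : ZMod N ⊕ ZMod N) ∈ Y ∧ (.inl (x + 1) : ZMod N ⊕ ZMod N) ∈ Y ∧
      (.inr (f x + 1) : ZMod N ⊕ ZMod N) ∉ Y ∧ (.inr (f x - 1) : ZMod N ⊕ ZMod N) ∉ Y ∧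
      (∀ z, (.inl (z + 1) : ZMod N ⊕ ZMod N) ∈ Y → (.inl z : ZMod N ⊕ ZMod N) ∉ Y →
        wA p (z + 1) = wA p x) ∧
      (∀ y, (.inr (y + 1) : ZMod N ⊕ ZMod N) ∈ Y → (.inr y : ZMod N ⊕ ZMod N) ∉ Y →
        wB r e (y + 1) ≠ wB r e (f x)) ∧
      (∀ y, (.inr y : ZMod N ⊕ ZMod N) ∈ Y → (.inr (y + 1) : ZMod N ⊕ ZMod N) ∉ Y →
        wB r e y ≠ wB r e (f x)) := by
  obtain ⟨e, hq⟩ := h.qz (by omega) hodd
  obtain ⟨Y, k, hk⟩ := hq.kill hN hcyc hno
  have h1 : k = 1 := by
    have := KillQ_interior hodd hq hk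
    omega
  subst h1
  have q0 : cq f x ε η 0 = x + ε := by simp [cq]
  have q1 : cq f x ε η 1 = x := by simp [cq]
  have q2 : cq f x ε η 2 = f.symm (f x + η) := by simp [cq]
  have g1 := hk.entIn 1 (by norm_num) le_rfl
  have g2 := hk.exOut 1 le_rfl (by norm_num)
  have g3 := hk.entIn 0 (by norm_num) (by norm_num)
  have g6 := hk.exOut 2 (by norm_num) (by norm_num)
  unfold ent at g1 g3
  unfold Pool.Agent.Helper19.RG.ext at g2 g6
  rw [if_neg (by norm_num), q1] at g1 g2
  rw [if_pos (by norm_num), q0] at g3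
  rw [if_pos (by norm_num), q2] at g6
  have hoth := hk.other
  rw [q1] at hoth
  obtain ⟨g7, g8, g9, g10⟩ := star_four hN hcyc hk.side g1 g2
  have b0 := (bdS hk).2 (by norm_num)
  have hcol := hq.col 1 (by norm_num) (by norm_num)
  rw [q1] at b0 hcol
  refine ⟨e, Y, hk.side, g1, g2, hoth, g3, g6, g8, g7, g9, g10, ?_, ?_, ?_⟩
  · intro z h1 h2
    rw [b0]
    exact bdA (by omega) hk (Or.inr rfl) h1 h2
  · intro y h1 h2 h3
    have := bdB (by omega) hk (Or.inr rfl) h1 h2
    rw [← b0] at this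
    exact hcol (this.symm.trans h3)
  · intro y h1 h2 h3
    have := bdB (by omega) hk (Or.inl rfl) h1 h2
    rw [← b0] at this
    exact hcol (this.symm.trans h3)

section words

variable (hN : 5 < N) (hcyc : CyclicallyEdgeConnected (permGraph N f) 5)

omit [NeZero N] in
include hN in
theorem one_ne' : (1 : ZMod N) ≠ 0 := by
  have : Fact (1 < N) := ⟨by omega⟩
  exact one_ne_zero

omit [NeZero N] in
include hN in
theorem add_one_ne (u : ZMod N) : u + 1 ≠ u := fun h => one_ne' hN (by linear_combination h)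

omit [NeZero N] in
include hN in
theorem add_neg_one_ne (u : ZMod N) : u + -1 ≠ u := fun h => one_ne' hN (by linear_combination -h)

include hN in
theorem val_pred {w : ZMod N} (hw : w ≠ 0) : (w - 1).val + 1 = w.val := by
  rw [val_sub_one (by omega), if_neg hw]
  have : w.val ≠ 0 := by rw [Ne, ZMod.val_eq_zero]; exact hw
  omega

omit [NeZero N] in
include hN in
theorem hfa (x : ZMod N) : f (x + 1) - f x ≠ 0 := by
  rw [sub_ne_zero]
  exact fun h => add_one_ne hN x (f.injective h)

omit [NeZero N] in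
include hN in
theorem hfb (x : ZMod N) : f (x - 1) - f x ≠ 0 := by
  rw [sub_ne_zero]
  exact fun h => add_neg_one_ne hN x (by rw [← sub_eq_add_neg]; exact f.injective h)

omit [NeZero N] in
include hN in
theorem hga (x : ZMod N) : f.symm (f x + 1) - x ≠ 0 := by
  rw [sub_ne_zero]
  intro h
  rw [Equiv.symm_apply_eq] at h
  exact add_one_ne hN _ h

omit [NeZero N] in
include hN in
theorem hgb (x : ZMod N) : f.symm (f x - 1) - x ≠ 0 := by
  rw [sub_ne_zero]
  intro h
  rw [Equiv.symm_apply_eq] at h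
  exact add_neg_one_ne hN (f x) (by rw [← sub_eq_add_neg]; exact h)

variable (hodd : N % 2 = 1)

include hN hcyc hodd

theorem wd_pp {x : ZMod N} (g1 : (f (x + 1) - f x).val % 2 = 1)
    (g2 : (f.symm (f x + 1) - x).val % 2 = 1) : Wd f 0 2 (cq f x 1 1) x (f x) 0 1 := by
  have hm1 : (-1 : ZMod N).val = N - 1 := val_neg_one' (by omega)
  refine corner_wd (add_one_ne hN _) (add_one_ne hN _) (Or.inr ⟨rfl, rfl⟩) (Or.inl ⟨rfl, rfl⟩)
    (no_four (by omega) hcyc (Or.inl rfl) (Or.inl rfl)) ?_ ?_
  · have a1 : x + 1 - x - 1 = 0 := by ring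
    have a2 : x - x - 1 = -1 := by ring
    have a3 : f x - f x - 1 = -1 := by ring
    have a4 := val_pred hN (hfa (f := f) hN x)
    rw [a1, a2, a3, hm1, ZMod.val_zero]
    omega
  · have a1 : f x + 1 - f x - 1 = 0 := by ring
    have a2 : x - x - 1 = -1 := by ring
    have a3 : f x - f x - 1 = -1 := by ring
    have a4 := val_pred hN (hga (f := f) hN x)
    rw [a1, a2, a3, hm1, ZMod.val_zero]
    omega

theorem wd_pm {x : ZMod N} (g1 : (f (x + 1) - f x).val % 2 = 0)
    (g2 : (f.symm (f x - 1) - x).val % 2 = 1) : Wd f 0 2 (cq f x 1 (-1)) x (f x - 1) 0 1 := by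
  have hm1 : (-1 : ZMod N).val = N - 1 := val_neg_one' (by omega)
  refine corner_wd (add_one_ne hN _) (add_neg_one_ne hN _) (Or.inr ⟨rfl, rfl⟩)
    (Or.inr ⟨by ring, by ring⟩) (no_four (by omega) hcyc (Or.inl rfl) (Or.inr rfl)) ?_ ?_
  · have a1 : x + 1 - x - 1 = 0 := by ring
    have a2 : x - x - 1 = -1 := by ring
    have a3 : f x - (f x - 1) - 1 = 0 := by ring
    have a4 : f (x + 1) - (f x - 1) - 1 = f (x + 1) - f x := by ring
    rw [a1, a2, a3, a4, hm1, ZMod.val_zero]
    omega
  · have a1 : f x + -1 - (f x - 1) - 1 = -1 := by ring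
    have a2 : x - x - 1 = -1 := by ring
    have a3 : f x - (f x - 1) - 1 = 0 := by ring
    have a4 := val_pred hN (hgb (f := f) hN x)
    rw [a1, a2, a3, hm1, ZMod.val_zero, ← sub_eq_add_neg]
    omega

theorem wd_mp {x : ZMod N} (g1 : (f (x - 1) - f x).val % 2 = 1)
    (g2 : (f.symm (f x + 1) - x).val % 2 = 0) : Wd f 0 2 (cq f x (-1) 1) (x - 1) (f x) 0 1 := by
  have hm1 : (-1 : ZMod N).val = N - 1 := val_neg_one' (by omega)
  refine corner_wd (add_neg_one_ne hN _) (add_one_ne hN _) (Or.inl ⟨by ring, by ring⟩)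
    (Or.inl ⟨rfl, rfl⟩) (no_four (by omega) hcyc (Or.inr rfl) (Or.inl rfl)) ?_ ?_
  · have a1 : x + -1 - (x - 1) - 1 = -1 := by ring
    have a2 : x - (x - 1) - 1 = 0 := by ring
    have a3 : f x - f x - 1 = -1 := by ring
    have a4 := val_pred hN (hfb (f := f) hN x)
    rw [a1, a2, a3, hm1, ZMod.val_zero, ← sub_eq_add_neg]
    omega
  · have a1 : f x + 1 - f x - 1 = 0 := by ring
    have a2 : x - (x - 1) - 1 = 0 := by ring
    have a3 : f x - f x - 1 = -1 := by ring
    have a4 : f.symm (f x + 1) - (x - 1) - 1 = f.symm (f x + 1) - x := by ring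
    rw [a1, a2, a3, a4, hm1, ZMod.val_zero]
    omega

theorem wd_mm {x : ZMod N} (g1 : (f (x - 1) - f x).val % 2 = 0)
    (g2 : (f.symm (f x - 1) - x).val % 2 = 0) :
    Wd f 0 2 (cq f x (-1) (-1)) (x - 1) (f x - 1) 0 1 := by
  have hm1 : (-1 : ZMod N).val = N - 1 := val_neg_one' (by omega)
  refine corner_wd (add_neg_one_ne hN _) (add_neg_one_ne hN _) (Or.inl ⟨by ring, by ring⟩)
    (Or.inr ⟨by ring, by ring⟩) (no_four (by omega) hcyc (Or.inr rfl) (Or.inr rfl)) ?_ ?_
  · have a1 : x + -1 - (x - 1) - 1 = -1 := by ring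
    have a2 : x - (x - 1) - 1 = 0 := by ring
    have a3 : f x - (f x - 1) - 1 = 0 := by ring
    have a4 : f (x - 1) - (f x - 1) - 1 = f (x - 1) - f x := by ring
    rw [a1, a2, a3, ← sub_eq_add_neg, a4, hm1, ZMod.val_zero]
    omega
  · have a1 : f x + -1 - (f x - 1) - 1 = -1 := by ring
    have a2 : x - (x - 1) - 1 = 0 := by ring
    have a3 : f x - (f x - 1) - 1 = 0 := by ring
    have a4 : f.symm (f x - 1) - (x - 1) - 1 = f.symm (f x - 1) - x := by ring
    rw [a1, a2, a3, ← sub_eq_add_neg, a4, hm1, ZMod.val_zero]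
    omega

end words

omit [NeZero N] in
theorem val_two (hN : 5 < N) : (2 : ZMod N).val = 2 := by
  have : ((2 : ℕ) : ZMod N) = 2 := by norm_cast
  rw [← this, ZMod.val_natCast_of_lt (by omega)]

omit [NeZero N] in
theorem val_three (hN : 5 < N) : (3 : ZMod N).val = 3 := by
  have : ((3 : ℕ) : ZMod N) = 3 := by norm_cast
  rw [← this, ZMod.val_natCast_of_lt (by omega)]

omit [NeZero N] in
theorem two_ne' (hN : 5 < N) : (2 : ZMod N) ≠ 0 := by
  intro h
  have := congrArg ZMod.val h
  rw [val_two hN, ZMod.val_zero] at this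
  omega

omit [NeZero N] in
theorem three_ne' (hN : 5 < N) : (3 : ZMod N) ≠ 0 := by
  intro h
  have := congrArg ZMod.val h
  rw [val_three hN, ZMod.val_zero] at this
  omega

theorem val_neg_two (hN : 5 < N) : (-2 : ZMod N).val = N - 2 := by
  rw [val_neg' _ (two_ne' hN), val_two hN]

theorem val_neg_three (hN : 5 < N) : (-3 : ZMod N).val = N - 3 := by
  rw [val_neg' _ (three_ne' hN), val_three hN]

/-- Step 0 in general position: the three inner spokes of a side with seven vertices have the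
same rigid type. -/
theorem step0 (hN : 5 < N) (hodd : N % 2 = 1)
    (hcyc : CyclicallyEdgeConnected (permGraph N f) 5)
    (hno : ¬ HasFlow (permGraph N f) (9 / 2)) {x c : ZMod N} (ha : f (x - 2) = c + 2)
    (hb : f (x - 1) = c) (hg : f (x + 1) = c + 1) :
    TP f (x - 2) ∧ TP f (x - 1) ∧ TP f (x + 1) := by
  have sb : f.symm c = x - 1 := by rw [Equiv.symm_apply_eq, hb]
  have sg : f.symm (c + 1) = x + 1 := by rw [Equiv.symm_apply_eq, hg]
  have sa : f.symm (c + 2) = x - 2 := by rw [Equiv.symm_apply_eq, ha]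
  have v2 := val_two hN
  have v3 := val_three hN
  have w2 := val_neg_two hN
  have w3 := val_neg_three hN
  have w1 : (-1 : ZMod N).val = N - 1 := val_neg_one' (by omega)
  have n2 := two_ne' hN
  have n3 := three_ne' hN
  have n1 := one_ne' hN
  -- the neighbours
  have ea1 : x - 2 + 1 = x - 1 := by ring
  have eb1 : x - 1 + 1 = x := by ring
  have eb2 : x - 1 - 1 = x - 2 := by ring
  have eg2 : x + 1 - 1 = x := by ring
  -- (1) the corner (E,N) at the first spoke
  have k1 : ¬ (f.symm (c + 2 + 1) - (x - 2)).val % 2 = 1 := by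
    intro h1
    have hw := wd_pp (f := f) hN hcyc hodd (x := x - 2)
      (by rw [ea1, hb, ha]
          have : c - (c + 2) = -2 := by ring
          rw [this, w2]; omega) (by rw [ha]; exact h1)
    obtain ⟨e, Y, hY, y1, y2, hoth, y3, y4, y5, y6, y7, y8, bA, bB, bC⟩ :=
      ckill hN hodd hcyc hno hw
    rw [ea1, hb] at y3
    rw [ha] at y8
    have e1 : c + 2 - 1 = c + 1 := by ring
    rw [e1] at y8
    apply bC c y3 y8
    rw [ha]
    unfold wB
    have a1 : c - (c + 2) - 1 = -3 := by ring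
    have a2 : c + 2 - (c + 2) - 1 = -1 := by ring
    rw [a1, a2, w3, w1, decide_eq_decide]
    omega
  -- (2) the corner (W,N) at the first spoke
  have k2 : ¬ (f (x - 2 - 1) - (c + 2)).val % 2 = 1 := by
    intro h1
    have hw := wd_mp (f := f) hN hcyc hodd (x := x - 2) (by rw [ha]; exact h1)
      (by rw [ha]; omega)
    obtain ⟨e, Y, hY, y1, y2, hoth, y3, y4, y5, y6, y7, y8, bA, bB, bC⟩ :=
      ckill hN hodd hcyc hno hw
    rw [ea1] at y6
    have y9 := (hoth (x - 1) (by intro h; exact n1 (by linear_combination h))).mp y6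
    rw [hb] at y9
    rw [ha] at y8
    have e1 : c + 2 - 1 = c + 1 := by ring
    rw [e1] at y8
    apply bC c y9 y8
    rw [ha]
    unfold wB
    have a1 : c - (c + 2) - 1 = -3 := by ring
    have a2 : c + 2 - (c + 2) - 1 = -1 := by ring
    rw [a1, a2, w3, w1, decide_eq_decide]
    omega
  -- (3) the corner (W,S) at the second spoke
  have k3 : ¬ (f.symm (c - 1) - (x - 1)).val % 2 = 0 := by
    intro h1
    have hw := wd_mm (f := f) hN hcyc hodd (x := x - 1)
      (by rw [eb2, hb, ha]
          have : c + 2 - c = 2 := by ring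
          rw [this, v2]) (by rw [hb]; exact h1)
    obtain ⟨e, Y, hY, y1, y2, hoth, y3, y4, y5, y6, y7, y8, bA, bB, bC⟩ :=
      ckill hN hodd hcyc hno hw
    have e2 : x - 1 + -1 = x - 2 := by ring
    rw [e2, ha] at y3
    rw [hb] at y7
    have e1 : c + 2 = c + 1 + 1 := by ring
    apply bB (c + 1) (by rw [← e1]; exact y3) y7
    rw [hb, ← e1]
    unfold wB
    have a1 : c + 2 - (c - 1) - 1 = 2 := by ring
    have a2 : c - (c - 1) - 1 = 0 := by ring
    rw [a1, a2, v2, ZMod.val_zero, decide_eq_decide]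
    omega
  -- (4) the corner (E,S) at the second spoke
  have k4 : ¬ (f x - c).val % 2 = 0 := by
    intro h1
    have hw := wd_pm (f := f) hN hcyc hodd (x := x - 1) (by rw [eb1, hb]; exact h1)
      (by rw [hb]; omega)
    obtain ⟨e, Y, hY, y1, y2, hoth, y3, y4, y5, y6, y7, y8, bA, bB, bC⟩ :=
      ckill hN hodd hcyc hno hw
    rw [eb2] at y5
    have y9 := (hoth (x - 2) (by intro h; exact n1 (by linear_combination -h))).mp y5
    rw [ha] at y9
    rw [hb] at y7
    have e1 : c + 2 = c + 1 + 1 := by ring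
    apply bB (c + 1) (by rw [← e1]; exact y9) y7
    rw [hb, ← e1]
    unfold wB
    have a1 : c + 2 - (c - 1) - 1 = 2 := by ring
    have a2 : c - (c - 1) - 1 = 0 := by ring
    rw [a1, a2, v2, ZMod.val_zero, decide_eq_decide]
    omega
  -- (5) the corner (E,S) at the third spoke
  have k5 : ¬ (f (x + 1 + 1) - (c + 1)).val % 2 = 0 := by
    intro h1
    have hw := wd_pm (f := f) hN hcyc hodd (x := x + 1) (by rw [hg]; exact h1)
      (by rw [hg]
          have : c + 1 - 1 = c := by ring
          rw [this, sb]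
          have : x - 1 - (x + 1) = -2 := by ring
          rw [this, w2]; omega)
    obtain ⟨e, Y, hY, y1, y2, hoth, y3, y4, y5, y6, y7, y8, bA, bB, bC⟩ :=
      ckill hN hodd hcyc hno hw
    rw [eg2] at y5
    have e1 : f (x + 1) + -1 = c := by rw [hg]; ring
    rw [e1, sb] at y4
    have e2 : x = x - 1 + 1 := by ring
    have h3 := bA (x - 1) (by rw [← e2]; exact y5) y4
    rw [← e2] at h3
    unfold wA at h3
    have a1 : x - (x + 1) - 1 = -2 := by ring
    have a2 : x + 1 - (x + 1) - 1 = -1 := by ring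
    rw [a1, a2, w2, w1, decide_eq_decide] at h3
    omega
  -- the remaining residues
  have z1 : f x - c ≠ 0 := by
    rw [← hb, sub_ne_zero]
    intro h
    exact n1 (by linear_combination f.injective h)
  have z2 : f x - (c + 1) ≠ 0 := by
    rw [← hg, sub_ne_zero]
    intro h
    exact n1 (by linear_combination -f.injective h)
  have z3 : f (x + 1 + 1) - (c + 1) ≠ 0 := by
    rw [← hg, sub_ne_zero]
    exact fun h => add_one_ne hN _ (f.injective h)
  have z4 : f.symm (c - 1) - (x - 1) ≠ 0 := by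
    rw [sub_ne_zero, Ne, Equiv.symm_apply_eq, hb]
    intro h
    exact n1 (by linear_combination -h)
  have u1 := val_pred hN z1
  have u2 : f x - c - 1 = f x - (c + 1) := by ring
  rw [u2] at u1
  have f1 := val_flip hodd (sub_ne_zero.mp z1)
  have f3 := val_flip hodd (sub_ne_zero.mp z3)
  have f4 := val_flip hodd (sub_ne_zero.mp z4)
  refine ⟨⟨?_, ?_, ?_, ?_⟩, ⟨?_, ?_, ?_, ?_⟩, ⟨?_, ?_, ?_, ?_⟩⟩
  · rw [ea1, ha, hb]
    have : c + 2 - c = 2 := by ring
    rw [this, v2]
  · rw [ha]; omega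
  · rw [ha]; omega
  · rw [ha]
    have : c + 2 - 1 = c + 1 := by ring
    rw [this, sg]
    have : x - 2 - (x + 1) = -3 := by ring
    rw [this, w3]; omega
  · rw [eb1, hb]; omega
  · rw [eb2, hb, ha]
    have : c + 2 - c = 2 := by ring
    rw [this, v2]
  · rw [hb, sg]
    have : x + 1 - (x - 1) = 2 := by ring
    rw [this, v2]
  · rw [hb]; omega
  · rw [hg]; omega
  · rw [eg2, hg]; omega
  · rw [hg]
    have : c + 1 + 1 = c + 2 := by ring
    rw [this, sa]
    have : x - 2 - (x + 1) = -3 := by ring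
    rw [this, w3]; omega
  · rw [hg]
    have : c + 1 - 1 = c := by ring
    rw [this, sb]
    have : x + 1 - (x - 1) = 2 := by ring
    rw [this, v2]

theorem val_add_nat {u : ZMod N} {k : ℕ} (h : u.val + k < N) :
    (u + (k : ZMod N)).val = u.val + k := by
  rw [ZMod.val_add, ZMod.val_natCast_of_lt (by omega), Nat.mod_eq_of_lt h]

theorem val_sub_nat {u : ZMod N} {k : ℕ} (h : k ≤ u.val) :
    (u - (k : ZMod N)).val = u.val - k := by
  have h1 := ZMod.val_lt u
  have h2 : (u - (k : ZMod N)) = ((u.val - k : ℕ) : ZMod N) := by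
    rw [Nat.cast_sub h, ZMod.natCast_zmod_val]
  rw [h2, ZMod.val_natCast_of_lt (by omega)]

end Pool.Agent.Helper56.M7

namespace Pool.Agent.Helper19.RG

open Finset Pool.Agent.Helper19.CF Pool.Agent.Helper56.M7

variable {N : ℕ} [NeZero N] {f : Equiv.Perm (ZMod N)} {c d : ZMod N}

/-- The three inner spokes of a side with seven vertices are rigid. -/
theorem M7.tp (hb : Bad f) (h : M7 f c d) : TP f (c - 2) ∧ TP f (c - 1) ∧ TP f (c + 1) :=
  Pool.Agent.Helper56.M7.step0 (by have := hb.hN; omega) hb.hodd hb.cyc hb.noflow h.a h.b h.g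

/-- Step 0 in coordinates. -/
theorem M7.step0 (hb : Bad f) (h : M7 f c d) :
    (f.symm (d + 3) - c).val % 2 = 0 ∧ (f.symm (d - 1) - c).val % 2 = 0 ∧
    (f (c - 3) - d).val % 2 = 0 ∧ (f (c + 2) - d).val % 2 = 0 ∧ (f c - d).val % 2 = 1 := by
  obtain ⟨t1, t2, t3⟩ := h.tp hb
  have hN : 5 < N := by have := hb.hN; omega
  have hodd := hb.hodd
  have v2 := val_two hN
  have w2 := val_neg_two hN
  have w1 : (-1 : ZMod N).val = N - 1 := val_neg_one' (by omega)
  have v1 : (1 : ZMod N).val = 1 := by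
    have : Fact (1 < N) := ⟨by omega⟩
    exact ZMod.val_one N
  have hinj : ∀ u w : ZMod N, u.val = w.val → u = w := fun u w h => ZMod.val_injective N h
  refine ⟨?_, ?_, ?_, ?_, ?_⟩
  · have h1 := t1.2.2.1
    rw [h.a] at h1
    have e1 : d + 2 + 1 = d + 3 := by ring
    have e2 : f.symm (d + 3) - (c - 2) = f.symm (d + 3) - c + ((2 : ℕ) : ZMod N) := by
      push_cast; ring
    rw [e1, e2, val_add_nat] at h1
    · omega
    · have h2 := ZMod.val_lt (f.symm (d + 3) - c)
      have h3 : (f.symm (d + 3) - c).val ≠ N - 1 := by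
        rw [← w1]
        intro h3
        have h4 := hinj _ _ h3
        have h5 : f.symm (d + 3) = c - 1 := by linear_combination h4
        rw [Equiv.symm_apply_eq, h.b] at h5
        exact three_ne' hN (by linear_combination h5)
      have h4 : (f.symm (d + 3) - c).val ≠ N - 2 := by
        rw [← w2]
        intro h3
        have h4 := hinj _ _ h3
        have h5 : f.symm (d + 3) = c - 2 := by linear_combination h4
        rw [Equiv.symm_apply_eq, h.a] at h5
        exact one_ne' hN (by linear_combination h5)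
      omega
  · have h1 := t2.2.2.2
    rw [h.b] at h1
    have e2 : c - 1 - f.symm (d - 1) = -(f.symm (d - 1) - c + ((1 : ℕ) : ZMod N)) := by
      push_cast; ring
    have h2 := ZMod.val_lt (f.symm (d - 1) - c)
    have h3 : (f.symm (d - 1) - c).val ≠ N - 1 := by
      rw [← w1]
      intro h3
      have h4 := hinj _ _ h3
      have h5 : f.symm (d - 1) = c - 1 := by linear_combination h4
      rw [Equiv.symm_apply_eq, h.b] at h5
      exact one_ne' hN (by linear_combination -h5)
    have h4 : (f.symm (d - 1) - c + ((1 : ℕ) : ZMod N)).val = (f.symm (d - 1) - c).val + 1 :=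
      val_add_nat (by omega)
    rw [e2, val_neg', h4] at h1
    · omega
    · intro h5
      rw [h5, ZMod.val_zero] at h4
      omega
  · have h1 := t1.2.1
    rw [h.a] at h1
    have e1 : c - 2 - 1 = c - 3 := by ring
    have e2 : f (c - 3) - (d + 2) = f (c - 3) - d - ((2 : ℕ) : ZMod N) := by push_cast; ring
    have h3 : 2 ≤ (f (c - 3) - d).val := by
      by_contra hcon
      have h4 : (f (c - 3) - d).val = 0 ∨ (f (c - 3) - d).val = 1 := by omega
      rcases h4 with h4 | h4
      · rw [ZMod.val_eq_zero, sub_eq_zero, ← h.b] at h4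
        exact two_ne' hN (by linear_combination -(f.injective h4))
      · have h5 : f (c - 3) = d + 1 := by linear_combination hinj _ _ (h4.trans v1.symm)
        rw [← h.g] at h5
        have h6 := f.injective h5
        have h7 : (4 : ZMod N) = 0 := by linear_combination -h6
        have h8 : ((4 : ℕ) : ZMod N).val = 4 := ZMod.val_natCast_of_lt (by omega)
        rw [Nat.cast_ofNat, h7, ZMod.val_zero] at h8
        omega
    rw [e1, e2, val_sub_nat h3] at h1
    omega
  · have h1 := t3.1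
    have e1 : c + 1 + 1 = c + 2 := by ring
    have e2 : d + 1 - f (c + 2) = -(f (c + 2) - d - ((1 : ℕ) : ZMod N)) := by push_cast; ring
    have h2 := ZMod.val_lt (f (c + 2) - d)
    have h3 : 2 ≤ (f (c + 2) - d).val := by
      by_contra hcon
      have h4 : (f (c + 2) - d).val = 0 ∨ (f (c + 2) - d).val = 1 := by omega
      rcases h4 with h4 | h4
      · rw [ZMod.val_eq_zero, sub_eq_zero, ← h.b] at h4
        exact three_ne' hN (by linear_combination (f.injective h4))
      · have h5 : f (c + 2) = d + 1 := by linear_combination hinj _ _ (h4.trans v1.symm)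
        rw [← h.g] at h5
        exact one_ne' hN (by linear_combination (f.injective h5))
    have h4 : (f (c + 2) - d - ((1 : ℕ) : ZMod N)).val = (f (c + 2) - d).val - 1 :=
      val_sub_nat (by omega)
    rw [h.g, e1, e2, val_neg', h4] at h1
    · omega
    · intro h5
      rw [h5, ZMod.val_zero] at h4
      omega
  · have h1 := t2.1
    have e1 : c - 1 + 1 = c := by ring
    have e2 : d - f c = -(f c - d) := by ring
    have h2 := ZMod.val_lt (f c - d)
    rw [e1, h.b, e2, val_neg'] at h1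
    · omega
    · rw [sub_ne_zero, ← h.b]
      intro h5
      exact one_ne' hN (by linear_combination (f.injective h5))

/-- The outer end of the star is not next to the side. -/
theorem M7.y_ne (hb : Bad f) (h : M7 f c d) : f c ≠ d + 3 ∧ f c ≠ d - 1 := by
  have hN := hb.hN
  have hs := (h.side hN).1
  have hN5 : 5 < N := by omega
  have key : ∀ y : ZMod N, (∀ j : ZMod N, (j = 0 ∨ j = 1 ∨ j = 2) → y ≠ d + j) →
      (.inr y : ZMod N ⊕ ZMod N) ∉ m7 c d := by
    intro y hy
    rw [mem_m7_r hN]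
    rintro (h1 | h1 | h1)
    · exact hy 0 (Or.inl rfl) (by rw [h1, add_zero])
    · exact hy 1 (Or.inr (Or.inl rfl)) h1
    · exact hy 2 (Or.inr (Or.inr rfl)) h1
  have hc : (.inl c : ZMod N ⊕ ZMod N) ∈ m7 c d := by
    rw [mem_m7_l hN]
    tauto
  constructor
  · intro h1
    refine hs.two_in hb (v := .inr (f c)) (u := .inl c) (w := .inr (d + 2)) ?_ hc ?_
      Sum.inl_ne_inr (adjS c).symm ?_
    · rw [h1]
      apply key
      rintro j (rfl | rfl | rfl) h2
      · exact three_ne' hN5 (by linear_combination h2)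
      · exact two_ne' hN5 (by linear_combination h2)
      · exact one_ne' hN5 (by linear_combination h2)
    · rw [mem_m7_r hN]
      tauto
    · have h2 := adjB' hb (f := f) (d + 3)
      have h3 : d + 3 - 1 = d + 2 := by ring
      rw [h3] at h2
      rw [h1]
      exact h2
  · intro h1
    refine hs.two_in hb (v := .inr (f c)) (u := .inl c) (w := .inr d) ?_ hc ?_
      Sum.inl_ne_inr (adjS c).symm ?_
    · rw [h1]
      apply key
      rintro j (rfl | rfl | rfl) h2
      · exact one_ne' hN5 (by linear_combination -h2)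
      · exact two_ne' hN5 (by linear_combination -h2)
      · exact three_ne' hN5 (by linear_combination -h2)
    · rw [mem_m7_r hN]
      tauto
    · have h2 := adjB hb (f := f) (d - 1)
      have h3 : d - 1 + 1 = d := by ring
      rw [h3] at h2
      rw [h1]
      exact h2

end Pool.Agent.Helper19.RG
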