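import Pool.Agent.Helper19.RG.WordQ
import Pool.Agent.Helper19.RG.Arcs

/-!
Killing cuts of words: the spoke of the cut is not an end spoke, and the colours at the cut.
(Problem MP_d067c8_co.)
-/

namespace Pool.Agent.Helper56.M7

open Finset Pool.Agent.Helper19.CF Pool.Agent.Helper19.RG

section par

variable {N : ℕ} [NeZero N]

/-- The number of monochromatic edges of a rim has the parity of its length. -/
theorem mono_par (c : ZMod N → Bool) :
    ((univ.filter fun x : ZMod N => c x = c (x + 1)).card + N) % 2 = 0 := by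
  classical
  have h1 : (∑ x : ZMod N, if c (x + 1) = true then 1 else 0) =
      ∑ x : ZMod N, if c x = true then 1 else 0 :=
    Equiv.sum_comp (Equiv.addRight (1 : ZMod N)) fun x => if c x = true then 1 else 0
  have h2 : ∀ s : Finset (ZMod N), ((s.filter fun x : ZMod N => c x = c (x + 1)).card + s.card +
      (∑ x ∈ s, if c (x + 1) = true then 1 else 0) +
      ∑ x ∈ s, if c x = true then 1 else 0) % 2 = 0 := by
    intro s
    induction s using Finset.induction_on with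
    | empty => simp
    | insert x s hx ih =>
      rw [sum_insert hx, sum_insert hx, card_insert_of_notMem hx, filter_insert]
      rcases hc : c x <;> rcases hd : c (x + 1) <;> simp only [Bool.false_eq_true, if_true,
        if_false, reduceCtorEq] <;> try rw [card_insert_of_notMem (by simp [hx])]
      all_goals omega
  have h3 := h2 univ
  rw [h1, card_univ, ZMod.card] at h3
  omega

end par

variable {N : ℕ} [NeZero N] {f : Equiv.Perm (ZMod N)} {Y : Finset (ZMod N ⊕ ZMod N)}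
  {a b : ℤ} {q : ℤ → ZMod N} {cA cB : ZMod N → Bool} {k : ℤ}

/-- The cut spoke is not an end spoke. -/
theorem KillQ_interior (hodd : N % 2 = 1) (hq : QZ f a b q cA cB)
    (h : KillQ f a b q cA cB Y k) : a < k ∧ k < b := by
  classical
  have hA := h.parA
  have hB := h.parB
  have hv := h.heavy
  have memA : ∀ x, cA x = cA (x + 1) → ∃ i, a ≤ i ∧ i + 1 ≤ b ∧
      ((.inl x : ZMod N ⊕ ZMod N) ∈ Y ↔ i < k) := by
    intro x hx
    obtain ⟨i, g1, g2, g3, g4⟩ := hq.mA x hx
    have g5 := h.stepA g1 g2 g3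
    refine ⟨i, g1, g2, ?_⟩
    rcases g4 with ⟨e1, e2⟩ | ⟨e1, e2⟩
    · rw [← e1]; exact g5.1
    · rw [← e2]; exact g5.2
  have memB : ∀ y, cB y = cB (y + 1) → ∃ i, a ≤ i ∧ i + 1 ≤ b ∧
      ((.inr y : ZMod N ⊕ ZMod N) ∈ Y ↔ i < k) := by
    intro x hx
    obtain ⟨i, g1, g2, g3, g4⟩ := hq.mB x hx
    have g5 := h.stepB g1 g2 g3
    refine ⟨i, g1, g2, ?_⟩
    rcases g4 with ⟨e1, e2⟩ | ⟨e1, e2⟩
    · rw [← e1]; exact g5.1
    · rw [← e2]; exact g5.2
  constructor
  · by_contra hcon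
    have hk : k = a := le_antisymm (not_lt.mp hcon) h.ak
    have e1 : (univ.filter fun x : ZMod N => cA x = cA (x + 1) ∧
        (.inl x : ZMod N ⊕ ZMod N) ∈ Y) = ∅ := by
      rw [filter_eq_empty_iff]
      rintro x - ⟨g1, g2⟩
      obtain ⟨i, g3, -, g4⟩ := memA x g1
      have := g4.mp g2
      omega
    have e2 : (univ.filter fun x : ZMod N => cB x = cB (x + 1) ∧
        (.inr x : ZMod N ⊕ ZMod N) ∈ Y) = ∅ := by
      rw [filter_eq_empty_iff]
      rintro x - ⟨g1, g2⟩
      obtain ⟨i, g3, -, g4⟩ := memB x g1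
      have := g4.mp g2
      omega
    rw [e1, card_empty] at hA
    rw [e2, card_empty] at hB
    rcases Int.emod_two_eq_zero_or_one k with g | g
    · have := hv.1 g
      omega
    · have := hv.2 g
      omega
  · by_contra hcon
    have hk : k = b := le_antisymm h.kb (not_lt.mp hcon)
    have e1 : (univ.filter fun x : ZMod N => cA x = cA (x + 1) ∧
        (.inl x : ZMod N ⊕ ZMod N) ∈ Y) = univ.filter fun x : ZMod N => cA x = cA (x + 1) := by
      refine filter_congr fun x _ => ⟨fun g => g.1, fun g => ⟨g, ?_⟩⟩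
      obtain ⟨i, -, g3, g4⟩ := memA x g
      exact g4.mpr (by omega)
    have e2 : (univ.filter fun x : ZMod N => cB x = cB (x + 1) ∧
        (.inr x : ZMod N ⊕ ZMod N) ∈ Y) = univ.filter fun x : ZMod N => cB x = cB (x + 1) := by
      refine filter_congr fun x _ => ⟨fun g => g.1, fun g => ⟨g, ?_⟩⟩
      obtain ⟨i, -, g3, g4⟩ := memB x g
      exact g4.mpr (by omega)
    have m1 := mono_par cA
    have m2 := mono_par cB
    rw [e1] at hA
    rw [e2] at hB
    rcases Int.emod_two_eq_zero_or_one k with g | g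
    · have := hv.1 g
      omega
    · have := hv.2 g
      omega

/-- Colours at the cut: an inner boundary vertex has the colour of the last vertex. -/
theorem bdA (hN : 2 < N) (h : KillQ f a b q cA cB Y k) {x x' : ZMod N}
    (hx : x' = x + 1 ∨ x = x' + 1) (h1 : (.inl x : ZMod N ⊕ ZMod N) ∈ Y)
    (h2 : (.inl x' : ZMod N ⊕ ZMod N) ∉ Y) : cA x = qC cA cB (endB f q b) :=
  h.bd _ h1 _ h2 ((adj_ll (by omega) _ _).mpr hx)

theorem bdB (hN : 2 < N) (h : KillQ f a b q cA cB Y k) {y y' : ZMod N}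
    (hy : y' = y + 1 ∨ y = y' + 1) (h1 : (.inr y : ZMod N ⊕ ZMod N) ∈ Y)
    (h2 : (.inr y' : ZMod N ⊕ ZMod N) ∉ Y) : cB y = qC cA cB (endB f q b) :=
  h.bd _ h1 _ h2 ((adj_rr (by omega) _ _).mpr hy)

/-- The inner end of the cut spoke. -/
theorem bdS (h : KillQ f a b q cA cB Y k) :
    (k % 2 = 0 → cB (f (q k)) = qC cA cB (endB f q b)) ∧
    (k % 2 = 1 → cA (q k) = qC cA cB (endB f q b)) := by
  constructor
  · intro g
    have h1 := h.cut.1 g
    exact h.bd _ h1.1 _ h1.2 ((adj_rl _ _).mpr rfl)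
  · intro g
    have h1 := h.cut.2 g
    exact h.bd _ h1.1 _ h1.2 ((adj_lr _ _).mpr rfl)

/-- The outer end of the star has no neighbour in `Y` on the second rim. -/
theorem star_outer (hN : 5 < N) (hcyc : CyclicallyEdgeConnected (permGraph N f) 5)
    {Y : Finset (ZMod N ⊕ ZMod N)} (hY : Side f Y) {x0 w : ZMod N}
    (hw : (permGraph N f).Adj (.inr (f x0)) (.inr w))
    (h1 : (.inl x0 : ZMod N ⊕ ZMod N) ∈ Y) (h2 : (.inr (f x0) : ZMod N ⊕ ZMod N) ∉ Y) :
    (.inr w : ZMod N ⊕ ZMod N) ∉ Y := by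
  classical
  intro h3
  have hreg : ∀ v, (permGraph N f).degree v = 3 := permGraph_regular (by omega)
  have hM := hY.compl
  have h4 := dd_erase (permGraph N f) hreg (M := Yᶜ) (v := .inr (f x0)) (u := .inl x0)
    (w := .inr w) (mem_compl.mpr h2) (by rw [mem_compl, not_not]; exact h1)
    (by rw [mem_compl, not_not]; exact h3) Sum.inl_ne_inr ((adj_rl _ _).mpr rfl) hw
  have h5 := hM.dd
  have h6 := hM.seven
  have h7 := hM.seven'
  have h8 : (Yᶜ.erase (.inr (f x0))).card = Yᶜ.card - 1 := card_erase_of_mem (mem_compl.mpr h2)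
  have h9 : (Yᶜ.erase (.inr (f x0)))ᶜ.card = Fintype.card (ZMod N ⊕ ZMod N) - (Yᶜ.card - 1) := by
    rw [card_compl, h8]
  rw [card_compl (Yᶜ)] at h7
  have h10 := small_side (permGraph N f) hreg hcyc (Yᶜ.erase (.inr (f x0))) (by omega)
  omega

/-- All four neighbours of the ends of the cut spoke, if the inner end is on the first rim. -/
theorem star_four (hN : 5 < N) (hcyc : CyclicallyEdgeConnected (permGraph N f) 5)
    {Y : Finset (ZMod N ⊕ ZMod N)} (hY : Side f Y) {x : ZMod N}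
    (h1 : (.inl x : ZMod N ⊕ ZMod N) ∈ Y) (h2 : (.inr (f x) : ZMod N ⊕ ZMod N) ∉ Y) :
    (.inl (x + 1) : ZMod N ⊕ ZMod N) ∈ Y ∧ (.inl (x - 1) : ZMod N ⊕ ZMod N) ∈ Y ∧
      (.inr (f x + 1) : ZMod N ⊕ ZMod N) ∉ Y ∧ (.inr (f x - 1) : ZMod N ⊕ ZMod N) ∉ Y :=
  ⟨star_inner hN hcyc hY ((adj_ll (by omega) _ _).mpr (Or.inl rfl)) h1 h2,
    star_inner hN hcyc hY ((adj_ll (by omega) _ _).mpr (Or.inr (by ring))) h1 h2,
    star_outer hN hcyc hY ((adj_rr (by omega) _ _).mpr (Or.inl rfl)) h1 h2,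
    star_outer hN hcyc hY ((adj_rr (by omega) _ _).mpr (Or.inr (by ring))) h1 h2⟩

/-- The same if the inner end is on the second rim. -/
theorem star_four' (hN : 5 < N) (hcyc : CyclicallyEdgeConnected (permGraph N f) 5)
    {Y : Finset (ZMod N ⊕ ZMod N)} (hY : Side f Y) {x : ZMod N}
    (h1 : (.inl x : ZMod N ⊕ ZMod N) ∉ Y) (h2 : (.inr (f x) : ZMod N ⊕ ZMod N) ∈ Y) :
    (.inl (x + 1) : ZMod N ⊕ ZMod N) ∉ Y ∧ (.inl (x - 1) : ZMod N ⊕ ZMod N) ∉ Y ∧
      (.inr (f x + 1) : ZMod N ⊕ ZMod N) ∈ Y ∧ (.inr (f x - 1) : ZMod N ⊕ ZMod N) ∈ Y := by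
  have h := star_four hN hcyc hY.compl (x := x) (mem_compl.mpr h1)
    (by rw [mem_compl, not_not]; exact h2)
  simp only [mem_compl, not_not] at h
  exact h

end Pool.Agent.Helper56.M7
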